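import Pool.Agent.BSH.Stmts

/-!
# BSH, row QQB: a bound for the degree of the generator
-/

set_option autoImplicit false

namespace Pool.Agent.BSH.H95

theorem qq_formula : ∀ l σ : ℕ,
    169 * qq l σ + 3 * (13 * σ + 28) = 91 * l + 3 * (13 * σ + 28) * 14 ^ l
  | 0, σ => by simp [qq]
  | l + 1, σ => by
    have h := qq_formula l (14 * σ + 28)
    have h2 : qq (l + 1) σ = 7 + 3 * σ + qq l (14 * σ + 28) := rfl
    rw [h2, pow_succ]
    generalize (14 : ℕ) ^ l = t at h ⊢
    have h3 : 3 * (13 * (14 * σ + 28) + 28) * t = 3 * (13 * σ + 28) * (t * 14) := by ring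
    rw [h3] at h
    omega

theorem bern : ∀ l : ℕ, 13 * l + 1 ≤ 14 ^ l
  | 0 => by norm_num
  | l + 1 => by
    have h := bern l
    rw [pow_succ]
    omega

theorem qqb : QqbStmt := by
  intro l σ
  have h := qq_formula l σ
  have h1 : 13 * l + 1 ≤ 14 ^ l := bern l
  generalize (14 : ℕ) ^ l = t at h h1 ⊢
  have h2 : 3 * (13 * σ + 28) * t = 39 * (σ * t) + 84 * t := by ring
  have h3 : (σ + 3) * t = σ * t + 3 * t := by ring
  rw [h2] at h
  rw [h3]
  clear h2 h3
  generalize σ * t = u at h ⊢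
  omega

end Pool.Agent.BSH.H95
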